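import Pool.Agent.Lib.MP_f3fa2b_pr.Main

/-!
Directed polymers on percolation clusters of `ℤ^d`: strong disorder at every inverse temperature,
for all translation-invariant percolations with finite energy.
-/

namespace Pool.Agent.Results.MP_f3fa2b_pr.NoWeakDisorder

open MeasureTheory Pool.Agent.MP_f3fa2b_pr

/-- For every translation-invariant probability measure with finite energy on the bond
configurations of `ℤ^d`, almost every configuration with an infinite cluster of the origin has
strong disorder at all `β > 0` and for all laws of the field; Bernoulli percolation is such a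
measure. -/
theorem result.{u} :
    (∀ (d : ℕ) (μ : Measure (Cfg d)) [IsProbabilityMeasure μ], TransInv μ → FiniteEnergy μ →
      ∀ᵐ η ∂μ, (cluster η 0).Infinite → StrongDisorder.{u} η) ∧
    ∀ (d : ℕ) (p : ℝ), 0 < p → p < 1 → IsProbabilityMeasure (bernoulli d p) ∧
      TransInv (bernoulli d p) ∧ FiniteEnergy (bernoulli d p) :=
  main.{u}

end Pool.Agent.Results.MP_f3fa2b_pr.NoWeakDisorder
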