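import Pool.Agent.Lib.MP_f3fa2b_pr.FE.Main

/-!
Directed polymers on percolation clusters of `ℤ^d`: strong disorder with zero free energy, at all
inverse temperatures at which the polymer on `ℤ^d` is not in strong disorder, in particular (in
dimension at least three) at all small ones.
-/

namespace Pool.Agent.Results.MP_f3fa2b_pr.SlowDecay

open MeasureTheory Pool.Agent.MP_f3fa2b_pr

/-- (1) For every translation-invariant probability measure with finite energy on the bond
configurations of `ℤ^d`, almost every configuration with an infinite cluster of the origin has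
`W_n(β) → 0` and `(1/n) log W_n(β) → 0` almost surely, for every i.i.d. non-constant integrable
field and every `β > 0` with a finite exponential moment at which the polymer on `ℤ^d` is not in
strong disorder. (2) If `d ≥ 3` and `E exp(b ω) < ∞` for some `b > 0`, then all sufficiently small
`β > 0` are such. -/
theorem result.{u} :
    (∀ (d : ℕ) (μ : Measure (Cfg d)) [IsProbabilityMeasure μ], TransInv μ →
      FiniteEnergy μ → ∀ᵐ η ∂μ, (cluster η 0).Infinite → SlowDecay.{u} η) ∧
    ∀ d : ℕ, 3 ≤ d → ∀ (Ω : Type u) [MeasurableSpace Ω] (P : Measure Ω)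
      [IsProbabilityMeasure P] (ω : ℕ → Vx d → Ω → ℝ), IIDField P ω → ∀ b : ℝ, 0 < b →
      Integrable (fun a => Real.exp (b * ω 1 0 a)) P →
      ∃ β₀ : ℝ, 0 < β₀ ∧ ∀ β : ℝ, 0 < β → β ≤ β₀ →
        Integrable (fun a => Real.exp (β * ω 1 0 a)) P ∧ WeakZd P ω β :=
  fe_main.{u}

end Pool.Agent.Results.MP_f3fa2b_pr.SlowDecay
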